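import Mathlib
import Pool.Agent.Helper2.BalWordF

set_option autoImplicit false

namespace Pool.Agent.Results.MP_9e6215_co.SuperlinearBalanced

/-- The factor `x_i x_{i+1} ⋯ x_{i+n-1}` of the infinite word `x`. -/
def factor {A : Type} (x : ℕ → A) (i n : ℕ) : List A := (List.range n).map (fun t => x (i + t))

/-- The set of all factors of the infinite word `x`. -/
def language {A : Type} (x : ℕ → A) : Set (List A) := {u | ∃ i n : ℕ, u = factor x i n}

/-- The number of (possibly overlapping) occurrences of `w` in `u`: the number of positions `k`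
such that the block of `u` of length `|w|` starting at position `k` equals `w`. -/
noncomputable def occ {A : Type} (u w : List A) : ℕ :=
  Set.ncard {k : ℕ | k + w.length ≤ u.length ∧ (u.drop k).take w.length = w}

/-- The finite word `w` is `C`-balanced in `x`. -/
def BalancedIn {A : Type} (x : ℕ → A) (C : ℕ) (w : List A) : Prop :=
  ∀ u ∈ language x, ∀ v ∈ language x, u.length = v.length → |(occ u w : ℤ) - (occ v w : ℤ)| ≤ C

/-- All factors of `x` are `C`-balanced in `x` for one constant `C ≥ 1`. -/
def UniformlyFactorBalanced {A : Type} (x : ℕ → A) : Prop :=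
  ∃ C : ℕ, 1 ≤ C ∧ ∀ w ∈ language x, BalancedIn x C w

/-- The factor complexity: the number of factors of length `n`. -/
noncomputable def complexity {A : Type} (x : ℕ → A) (n : ℕ) : ℕ :=
  Set.ncard {u : List A | u ∈ language x ∧ u.length = n}

open Pool.Agent.Helper2.BalWord

theorem factor_length {A : Type} (x : ℕ → A) (i n : ℕ) : (factor x i n).length = n := by
  simp [factor]

theorem factor_sub {A : Type} (x : ℕ → A) (i m k n : ℕ) (h : k + n ≤ m) :
    ((factor x i m).drop k).take n = factor x (i + k) n := by
  apply List.ext_getElem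
  · simp [factor]; omega
  · intro t h1 h2
    simp [factor, Nat.add_assoc]

theorem factor_eq_iff {A : Type} (x : ℕ → A) (a b n : ℕ) :
    factor x a n = factor x b n ↔ ∀ t < n, x (a + t) = x (b + t) := by
  constructor
  · intro h t ht
    have h1 : (factor x a n)[t]'(by simp [factor, ht]) = (factor x b n)[t]'(by simp [factor, ht]) := by
      simp [h]
    simpa [factor] using h1
  · intro h
    apply List.ext_getElem
    · simp [factor]
    · intro t h1 h2
      simp [factor] at h1 ⊢
      exact h t h1

/-- The infinite word. -/
def word (k : ℕ) : Fin 16 := ⟨x k, y_lt 0 k⟩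

theorem word_eq_iff (a b : ℕ) : word a = word b ↔ x a = x b := by
  constructor
  · intro h
    exact congrArg Fin.val h
  · intro h
    exact Fin.ext h

theorem word_agree (a b n : ℕ) : factor word a n = factor word b n ↔ Agree a b n := by
  rw [factor_eq_iff]
  simp only [word_eq_iff]
  rfl

theorem occ_eq (i m k0 n : ℕ) : occ (factor word i m) (factor word k0 n) + cnt (fun k => Agree k k0 n) i
    = cnt (fun k => Agree k k0 n) (i + (m + 1 - n)) := by
  classical
  have hset : {k : ℕ | k + (factor word k0 n).length ≤ (factor word i m).length ∧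
      ((factor word i m).drop k).take (factor word k0 n).length = factor word k0 n} =
      ↑((Finset.range (m + 1 - n)).filter (fun k => Agree (i + k) k0 n)) := by
    ext k
    simp only [factor_length, Set.mem_ofPred_eq, Finset.coe_filter, Finset.mem_range]
    constructor
    · rintro ⟨h1, h2⟩
      refine ⟨by omega, ?_⟩
      rw [factor_sub word i m k n h1] at h2
      exact (word_agree _ _ _).1 h2
    · rintro ⟨h1, h2⟩
      have h3 : k + n ≤ m := by omega
      refine ⟨h3, ?_⟩
      rw [factor_sub word i m k n h3]
      exact (word_agree _ _ _).2 h2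
  unfold occ
  rw [hset, Set.ncard_coe_finset, cnt_add, cnt_eq_card _ (m + 1 - n), Nat.add_comm]

theorem word_balanced : UniformlyFactorBalanced word := by
  refine ⟨228, by norm_num, ?_⟩
  rintro w ⟨k0, n, rfl⟩ u ⟨i, m, rfl⟩ v ⟨j, m', rfl⟩ hl
  rw [factor_length, factor_length] at hl
  subst hl
  have h1 := occ_eq i m k0 n
  have h2 := occ_eq j m k0 n
  have h3 := bal_main k0 n i j (m + 1 - n)
  have h4 := bal_main k0 n j i (m + 1 - n)
  rw [abs_le]
  constructor <;> push_cast <;> omega

theorem word_complexity (i : ℕ) : 2 ^ B i ≤ complexity word (L i) := by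
  have hfin : {u : List (Fin 16) | u ∈ language word ∧ u.length = L i}.Finite := by
    apply (List.finite_length_eq (Fin 16) (L i)).subset
    intro u hu
    exact hu.2
  choose! q hq using y_surj i
  have himg : (fun c => factor word (L i * q c) (L i)) '' ↑(Finset.range (2 ^ B i)) ⊆
      {u : List (Fin 16) | u ∈ language word ∧ u.length = L i} := by
    rintro _ ⟨c, _, rfl⟩
    exact ⟨⟨_, _, rfl⟩, factor_length _ _ _⟩
  have hinj : Set.InjOn (fun c => factor word (L i * q c) (L i)) ↑(Finset.range (2 ^ B i)) := by
    intro c hc c' hc' h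
    simp only [Finset.coe_range, Set.mem_Iio] at hc hc'
    have h1 := (word_agree _ _ _).1 h
    have h2 := h1.block i (q c) (q c') le_rfl (by ring_nf; omega) (by ring)
    rw [hq c hc, hq c' hc'] at h2
    exact h2
  calc 2 ^ B i = (↑(Finset.range (2 ^ B i)) : Set ℕ).ncard := by
        rw [Set.ncard_coe_finset, Finset.card_range]
    _ = ((fun c => factor word (L i * q c) (L i)) '' ↑(Finset.range (2 ^ B i))).ncard :=
        (hinj.ncard_image).symm
    _ ≤ _ := Set.ncard_le_ncard himg hfin

/-- There is a uniformly factor-balanced infinite word over a 16-letter alphabet whose factor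
complexity is superlinear. -/
theorem result : ∃ x : ℕ → Fin 16, UniformlyFactorBalanced x ∧
    ∀ K : ℕ, ∃ n : ℕ, 1 ≤ n ∧ K * n < complexity x n := by
  refine ⟨word, word_balanced, ?_⟩
  intro K
  refine ⟨L (K + 1), L_pos _, ?_⟩
  calc K * L (K + 1) < (K + 2) * L (K + 1) := by
        apply Nat.mul_lt_mul_of_pos_right (by omega) (L_pos _)
    _ ≤ 2 ^ B (K + 1) := (growth K).2
    _ ≤ complexity word (L (K + 1)) := word_complexity (K + 1)

end Pool.Agent.Results.MP_9e6215_co.SuperlinearBalanced
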